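import Pool.Agent.J6H63.Cop.Stm

/-!
Copolymer at a selective interface, module EV of helper63: with probability at least `p1` the two
orders of the long excursions have very different weights.
-/

set_option autoImplicit false

open MeasureTheory ProbabilityTheory Filter Topology
open Cop764 Pool.Agent.J6H63.Cop

namespace Pool.Agent.J6H40.Cop

/-! ## words -/

theorem st_split {M : ℕ} (n : Fin M → ℕ) {i j : Fin M} (hij : i < j) :
    st n j = st n i + n i + ∑ k ∈ Finset.Ioo i j, n k := by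
  unfold st
  have h1 : Finset.Iio j = (Finset.Iio i ∪ {i}) ∪ Finset.Ioo i j := by
    ext k
    simp only [Finset.mem_Iio, Finset.mem_union, Finset.mem_singleton, Finset.mem_Ioo]
    constructor
    · intro h
      rcases lt_trichotomy k i with h1 | h1 | h1
      · exact Or.inl (Or.inl h1)
      · exact Or.inl (Or.inr h1)
      · exact Or.inr ⟨h1, h⟩
    · rintro ((h | h) | h)
      · exact h.trans hij
      · rw [h]
        exact hij
      · exact h.2
  rw [h1, Finset.sum_union, Finset.sum_union, Finset.sum_singleton]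
  · rw [Finset.disjoint_singleton_right, Finset.mem_Iio]
    exact lt_irrefl i
  · rw [Finset.disjoint_left]
    intro k hk hk2
    rw [Finset.mem_union, Finset.mem_Iio, Finset.mem_singleton] at hk
    rw [Finset.mem_Ioo] at hk2
    rcases hk with h | h
    · exact lt_asymm h hk2.1
    · rw [h] at hk2
      exact lt_irrefl i hk2.1

theorem disj {M : ℕ} (n : Fin M → ℕ) {k l : Fin M} (hkl : k ≠ l) :
    Disjoint (Finset.Ioc (st n k) (st n k + n k)) (Finset.Ioc (st n l) (st n l + n l)) := by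
  wlog h : k < l generalizing k l
  · exact (this hkl.symm (lt_of_le_of_ne (not_lt.1 h) hkl.symm)).symm
  have h1 := st_split n h
  rw [Finset.disjoint_left]
  intro x hx hx2
  rw [Finset.mem_Ioc] at hx hx2
  omega

theorem swap_lo {M : ℕ} (n : Fin M → ℕ) {i j k : Fin M} (hi : k ≠ i) (hj : k ≠ j) :
    (n ∘ Equiv.swap i j) k = n k := by
  rw [Function.comp_apply, Equiv.swap_apply_of_ne_of_ne hi hj]

theorem st_swap_i {M : ℕ} (n : Fin M → ℕ) {i j : Fin M} (hij : i < j) :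
    st (n ∘ Equiv.swap i j) i = st n i := by
  unfold st
  apply Finset.sum_congr rfl
  intro k hk
  rw [Finset.mem_Iio] at hk
  exact swap_lo n hk.ne (hk.trans hij).ne

theorem st_swap_j {M : ℕ} (n : Fin M → ℕ) {i j : Fin M} (hij : i < j) :
    st (n ∘ Equiv.swap i j) j = st n i + n j + ∑ k ∈ Finset.Ioo i j, n k := by
  rw [st_split _ hij, st_swap_i n hij, Function.comp_apply, Equiv.swap_apply_left]
  congr 1
  apply Finset.sum_congr rfl
  intro k hk
  rw [Finset.mem_Ioo] at hk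
  exact swap_lo n hk.1.ne' hk.2.ne

theorem Bw_split (w : ℕ → ℝ) {M : ℕ} (n : Fin M → ℕ) {i j : Fin M} (hij : i ≠ j) :
    Bw w n = (∏ k ∈ Finset.univ \ {i, j}, phi w (st n k) (st n k + n k)) *
      (phi w (st n i) (st n i + n i) * phi w (st n j) (st n j + n j)) := by
  unfold Bw
  rw [← Finset.prod_sdiff (Finset.subset_univ {i, j}), Finset.prod_pair hij]

/-! ## weights -/

theorem S_eq (B : Base) (lam : ℝ) (hl : 0 < lam) (h : ℝ) (ω : ℕ → ℝ) (a m : ℕ) :
    S ((B.dat lam hl).w h ω) a (a + m) =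
      -2 * (lam * ∑ i ∈ Finset.Ioc a (a + m), ω i) - 2 * lam * h * m := by
  unfold S Data.w
  have e : (B.dat lam hl).lam = lam := rfl
  rw [e, ← Finset.mul_sum, Finset.sum_add_distrib, Finset.sum_const, Nat.card_Ioc, nsmul_eq_mul]
  have : ((a + m - a : ℕ) : ℝ) = m := by
    rw [Nat.add_sub_cancel_left]
  rw [this]
  ring

theorem phi_half (w : ℕ → ℝ) (a b : ℕ) : 1 / 2 ≤ phi w a b := by
  unfold phi
  have := Real.exp_pos (S w a b)
  linarith

theorem phi_exp (w : ℕ → ℝ) (a b : ℕ) : Real.exp (S w a b) / 2 ≤ phi w a b := by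
  unfold phi
  linarith

theorem phi_le_one (w : ℕ → ℝ) (a b : ℕ) (h : S w a b ≤ 0) : phi w a b ≤ 1 := by
  unfold phi
  have := Real.exp_le_one_iff.2 h
  linarith

theorem exp5 : (143 : ℝ) ≤ Real.exp 5 := by
  have h1 : (2.718 : ℝ) ≤ Real.exp 1 := by
    have := Real.exp_one_gt_d9
    linarith
  have h2 : Real.exp 5 = Real.exp 1 ^ 5 := by
    rw [← Real.exp_nat_mul]
    norm_num
  rw [h2]
  have h3 : (2.718 : ℝ) ^ 5 ≤ Real.exp 1 ^ 5 := pow_le_pow_left₀ (by norm_num) h1 5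
  refine le_trans ?_ h3
  norm_num

theorem exp2 : Real.exp 2 ≤ 7.4 := by
  have h1 : Real.exp 1 ≤ (2.72 : ℝ) := by
    have := Real.exp_one_lt_d9
    linarith
  have h2 : Real.exp 2 = Real.exp 1 ^ 2 := by
    rw [← Real.exp_nat_mul]
    norm_num
  rw [h2]
  have h3 : Real.exp 1 ^ 2 ≤ (2.72 : ℝ) ^ 2 :=
    pow_le_pow_left₀ (Real.exp_pos 1).le h1 2
  refine h3.trans ?_
  norm_num

theorem sum_cut (ω : ℕ → ℝ) {a b c : ℕ} (h1 : a ≤ b) (h2 : b ≤ c) :
    ∑ i ∈ Finset.Ioc a c, ω i = ∑ i ∈ Finset.Ioc a b, ω i + ∑ i ∈ Finset.Ioc b c, ω i :=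
  (Finset.sum_Ioc_consecutive ω h1 h2).symm

/-! ## events -/

/-- the event of the central limit theorem -/
def clE (k m : ℕ) (a b : ℝ) : Set (ℕ → ℝ) :=
  {ω | a * √(m : ℝ) < ∑ i ∈ Finset.Ioc k (k + m), ω i ∧
    ∑ i ∈ Finset.Ioc k (k + m), ω i < b * √(m : ℝ)}

theorem meas_sum (s : Finset ℕ) : Measurable (fun ω : ℕ → ℝ => ∑ i ∈ s, ω i) :=
  Finset.measurable_sum s fun i _ => measurable_pi_apply i

theorem meas_clE (k m : ℕ) (a b : ℝ) : MeasurableSet (clE k m a b) :=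
  (measurableSet_lt measurable_const (meas_sum _)).inter
    (measurableSet_lt (meas_sum _) measurable_const)

theorem loc_clE (k m : ℕ) (a b : ℝ) {ω ω' : ℕ → ℝ}
    (h : ∀ n ∈ Finset.Ioc k (k + m), ω n = ω' n) (hω : ω ∈ clE k m a b) : ω' ∈ clE k m a b := by
  obtain ⟨h1, h2⟩ := hω
  rw [Finset.sum_congr rfl h] at h1 h2
  exact ⟨h1, h2⟩

/-- product rule for events depending on disjoint sets of coordinates -/
theorem indep_mul (ν : Measure ℝ) [IsProbabilityMeasure ν] (s t : Finset ℕ) (hd : Disjoint s t)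
    (E F : Set (ℕ → ℝ)) (hE : MeasurableSet E) (hF : MeasurableSet F)
    (lE : ∀ ω ω' : ℕ → ℝ, (∀ n ∈ s, ω n = ω' n) → ω ∈ E → ω' ∈ E)
    (lF : ∀ ω ω' : ℕ → ℝ, (∀ n ∈ t, ω n = ω' n) → ω ∈ F → ω' ∈ F) :
    (disorder ν).real (E ∩ F) = (disorder ν).real E * (disorder ν).real F := by
  classical
  have key : ∀ (E : Set (ℕ → ℝ)) (s : Finset ℕ),
      (∀ ω ω' : ℕ → ℝ, (∀ n ∈ s, ω n = ω' n) → ω ∈ E → ω' ∈ E) →
      ∀ ω ω' : ℕ → ℝ, (∀ n ∈ s, ω n = ω' n) →
        E.indicator (fun _ => (1 : ℝ)) ω = E.indicator (fun _ => (1 : ℝ)) ω' := by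
    intro E s lE ω ω' h
    by_cases hω : ω ∈ E
    · rw [Set.indicator_of_mem hω, Set.indicator_of_mem (lE ω ω' h hω)]
    · have : ω' ∉ E := fun h2 => hω (lE ω' ω (fun n hn => (h n hn).symm) h2)
      rw [Set.indicator_of_notMem hω, Set.indicator_of_notMem this]
  have h1 := M_indep.J_indep ν s t hd (E.indicator fun _ => (1 : ℝ)) (F.indicator fun _ => (1 : ℝ))
    (measurable_const.indicator hE) (measurable_const.indicator hF) (key E s lE) (key F t lF)
  have h2 := h1.measure_inter_preimage_eq_mul {1} {1} (measurableSet_singleton _)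
    (measurableSet_singleton _)
  have h3 : ∀ E : Set (ℕ → ℝ), (E.indicator fun _ => (1 : ℝ)) ⁻¹' {1} = E := by
    intro E
    ext ω
    rw [Set.mem_preimage, Set.mem_singleton_iff]
    by_cases hω : ω ∈ E
    · simp [hω]
    · simp [hω]
  rw [h3, h3] at h2
  unfold Measure.real
  rw [h2, ENNReal.toReal_mul]

theorem real_inter_ge {Ω : Type} [MeasurableSpace Ω] (μ : Measure Ω) [IsProbabilityMeasure μ]
    (A B : Set Ω) (hB : MeasurableSet B) (p ε : ℝ) (hA : p ≤ μ.real A) (h : 1 - ε ≤ μ.real B) :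
    p - ε ≤ μ.real (A ∩ B) := by
  have h1 : μ.real A ≤ μ.real (A ∩ B) + μ.real Bᶜ := by
    refine (measureReal_mono ?_).trans (measureReal_union_le _ _)
    intro x hx
    by_cases hxB : x ∈ B
    · exact Or.inl ⟨hx, hxB⟩
    · exact Or.inr hxB
  rw [probReal_compl_eq_one_sub hB] at h1
  linarith

theorem root_bd (lam : ℝ) (hl : 0 < lam) (m : ℕ) (a b : ℝ) (hb : 0 ≤ b)
    (h1 : a ^ 2 * (lam⁻¹ ^ 2) ≤ m) (h2 : (m : ℝ) ≤ b ^ 2 * (lam⁻¹ ^ 2)) :
    a ≤ lam * √(m : ℝ) ∧ lam * √(m : ℝ) ≤ b := by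
  have hli : 0 < lam⁻¹ := inv_pos.2 hl
  have e1 : a * lam⁻¹ ≤ √(m : ℝ) := by
    apply Real.le_sqrt_of_sq_le
    rw [mul_pow]
    exact h1
  have e2 : √(m : ℝ) ≤ b * lam⁻¹ := by
    rw [Real.sqrt_le_iff]
    refine ⟨by positivity, ?_⟩
    rw [mul_pow]
    exact h2
  have e3 : lam * lam⁻¹ = 1 := mul_inv_cancel₀ hl.ne'
  constructor
  · have := mul_le_mul_of_nonneg_left e1 hl.le
    calc a = lam * (a * lam⁻¹) := by
          rw [mul_left_comm, e3, mul_one]
      _ ≤ _ := this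
  · have := mul_le_mul_of_nonneg_left e2 hl.le
    calc lam * √(m : ℝ) ≤ lam * (b * lam⁻¹) := this
      _ = b := by rw [mul_left_comm, e3, mul_one]

/-- lengths of the segments -/
theorem lens (T s : ℝ) (hT : 0 < T) (hs : s ≤ 1 / 20) {M : ℕ} (n : Fin M → ℕ) {i j : Fin M}
    (hG : Good T s n i j) :
    ((∑ k ∈ Finset.Ioo i j, n k : ℕ) : ℝ) ≤ s * T ∧
    n i + ∑ k ∈ Finset.Ioo i j, n k ≤ n j ∧
    17 / 20 * T ≤ ((n j - n i - ∑ k ∈ Finset.Ioo i j, n k : ℕ) : ℝ) ∧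
    ((n j - n i - ∑ k ∈ Finset.Ioo i j, n k : ℕ) : ℝ) ≤ 11 / 10 * T := by
  obtain ⟨-, g1, g2, g3, g4, g5⟩ := hG
  have h1 : ((∑ k ∈ Finset.Ioo i j, n k : ℕ) : ℝ) ≤ s * T := by
    rw [Nat.cast_sum]
    refine le_trans ?_ g5
    apply Finset.sum_le_sum_of_subset_of_nonneg
    · intro k hk
      rw [Finset.mem_Ioo] at hk
      rw [Finset.mem_sdiff, Finset.mem_insert, Finset.mem_singleton]
      exact ⟨Finset.mem_univ k, not_or.2 ⟨hk.1.ne', hk.2.ne⟩⟩
    · intro k _ _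
      exact Nat.cast_nonneg _
  have h1b : s * T ≤ 1 / 20 * T := mul_le_mul_of_nonneg_right hs hT.le
  have h2 : n i + ∑ k ∈ Finset.Ioo i j, n k ≤ n j := by
    have : ((n i + ∑ k ∈ Finset.Ioo i j, n k : ℕ) : ℝ) ≤ (n j : ℝ) := by
      rw [Nat.cast_add]
      linarith
    exact_mod_cast this
  have h3 : ((n j - n i - ∑ k ∈ Finset.Ioo i j, n k : ℕ) : ℝ) =
      (n j : ℝ) - n i - ((∑ k ∈ Finset.Ioo i j, n k : ℕ) : ℝ) := by
    rw [Nat.cast_sub (by omega), Nat.cast_sub (by omega)]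
  refine ⟨h1, h2, ?_, ?_⟩
  · rw [h3]
    linarith
  · rw [h3]
    have : (0 : ℝ) ≤ ((∑ k ∈ Finset.Ioo i j, n k : ℕ) : ℝ) := Nat.cast_nonneg _
    linarith

/-- deterministic part -/
theorem point (B : Base) (lam : ℝ) (hl : 0 < lam) (h : ℝ) (h0 : 0 ≤ h) (h2 : h ≤ 2 * lam)
    {M : ℕ} (n : Fin M → ℕ) {i j : Fin M} (hij : i < j) (s : ℝ) (hs : s ≤ 1 / 20)
    (hG : Good (lam⁻¹ ^ 2) s n i j) (ω : ℕ → ℝ)
    (a L m3 : ℕ) (ha : a = st n i) (hL : L = ∑ k ∈ Finset.Ioo i j, n k)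
    (hm3 : m3 = n j - n i - ∑ k ∈ Finset.Ioo i j, n k)
    (e1 : ω ∈ clE a (n i) 10 11)
    (e3 : ω ∈ clE (a + n i + L) m3 (-(84 / 10)) (-(77 / 10)))
    (e5 : ω ∈ clE (a + n j + L) (n i) (-(9 / 10)) 0)
    (e2 : |lam * ∑ i ∈ Finset.Ioc (a + n i) (a + n i + L), ω i| ≤ 1 / 10)
    (e4 : |lam * ∑ i ∈ Finset.Ioc (a + n j) (a + n j + L), ω i| ≤ 1 / 10)
    (p1 : 9 / 10 ≤ ∏ k ∈ Finset.univ \ {i, j},
      phi ((B.dat lam hl).w h ω) (st n k) (st n k + n k))
    (p2 : ∏ k ∈ Finset.univ \ {i, j}, phi ((B.dat lam hl).w h ω) (st (n ∘ Equiv.swap i j) k)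
       (st (n ∘ Equiv.swap i j) k + (n ∘ Equiv.swap i j) k) ≤ 11 / 10) :
    20 ≤ Bw ((B.dat lam hl).w h ω) n ∧
      Bw ((B.dat lam hl).w h ω) (n ∘ Equiv.swap i j) ≤ 8 := by
  have hT : 0 < lam⁻¹ ^ 2 := by positivity
  obtain ⟨l1, l2, l3, l4⟩ := lens _ s hT hs n hG
  obtain ⟨-, g1, g2, g3, g4, g5⟩ := hG
  rw [← hm3] at l3 l4
  rw [← hL] at l2
  have hnj : n j = n i + L + m3 := by
    rw [← hL] at hm3
    omega
  obtain ⟨r1, r2⟩ := root_bd lam hl (n i) 1 (105 / 100) (by norm_num) (by linarith)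
    (by nlinarith)
  obtain ⟨r3, r4⟩ := root_bd lam hl m3 (92 / 100) (105 / 100) (by norm_num) (by nlinarith)
    (by nlinarith)
  obtain ⟨c1, -⟩ := e1
  obtain ⟨c2, c3⟩ := e3
  obtain ⟨c4, c5⟩ := e5
  rw [abs_le] at e2 e4
  -- the scaled sums
  have x1 : 10 ≤ lam * ∑ i ∈ Finset.Ioc a (a + n i), ω i := by
    have := mul_le_mul_of_nonneg_left c1.le hl.le
    linarith
  have x3 : lam * ∑ i ∈ Finset.Ioc (a + n i + L) (a + n i + L + m3), ω i ≤ -7 := by
    have := mul_le_mul_of_nonneg_left c3.le hl.le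
    linarith
  have x3' : -9 ≤ lam * ∑ i ∈ Finset.Ioc (a + n i + L) (a + n i + L + m3), ω i := by
    have := mul_le_mul_of_nonneg_left c2.le hl.le
    linarith
  have x5 : lam * ∑ i ∈ Finset.Ioc (a + n j + L) (a + n j + L + n i), ω i ≤ 0 := by
    have := mul_le_mul_of_nonneg_left c5.le hl.le
    linarith
  have x5' : -(95 / 100) ≤ lam * ∑ i ∈ Finset.Ioc (a + n j + L) (a + n j + L + n i), ω i := by
    have := mul_le_mul_of_nonneg_left c4.le hl.le
    linarith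
  have hlh : 0 ≤ lam * h := mul_nonneg hl.le h0
  have hdr : 2 * lam * h * (n j : ℝ) ≤ 84 / 10 := by
    have e : lam ^ 2 * lam⁻¹ ^ 2 = 1 := by
      rw [← mul_pow, mul_inv_cancel₀ hl.ne', one_pow]
    have k1 : 2 * lam * h * (n j : ℝ) ≤ 2 * lam * h * (21 / 10 * lam⁻¹ ^ 2) :=
      mul_le_mul_of_nonneg_left g4 (by nlinarith)
    have k2 : 2 * lam * h * (21 / 10 * lam⁻¹ ^ 2) ≤ 2 * lam * (2 * lam) * (21 / 10 * lam⁻¹ ^ 2) :=
      mul_le_mul_of_nonneg_right (mul_le_mul_of_nonneg_left h2 (by linarith)) (by positivity)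
    have k3 : 2 * lam * (2 * lam) * (21 / 10 * lam⁻¹ ^ 2) = 84 / 10 * (lam ^ 2 * lam⁻¹ ^ 2) := by
      ring
    rw [e, mul_one] at k3
    linarith
  have hstj : st n j = a + n i + L := by
    rw [st_split n hij, ← hL, ← ha]
  constructor
  · rw [Bw_split _ n hij.ne]
    have q1 := phi_half ((B.dat lam hl).w h ω) (st n i) (st n i + n i)
    have q2 : 143 / 2 ≤ phi ((B.dat lam hl).w h ω) (st n j) (st n j + n j) := by
      refine le_trans ?_ (phi_exp _ _ _)
      have := exp5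
      have k : 5 ≤ S ((B.dat lam hl).w h ω) (st n j) (st n j + n j) := by
        rw [S_eq, hstj]
        have f1 : a + n i + L + n j = a + n j + L + n i := by omega
        rw [f1, sum_cut ω (b := a + n i + L + m3) (by omega) (by omega),
          sum_cut ω (a := a + n i + L + m3) (b := a + n j + L) (by omega) (by omega)]
        have f2 : a + n i + L + m3 = a + n j := by omega
        rw [f2] at x3 ⊢
        rw [mul_add, mul_add]
        linarith [e4.2]
      have := Real.exp_le_exp.2 k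
      linarith
    have q3 : 143 / 4 ≤ phi ((B.dat lam hl).w h ω) (st n i) (st n i + n i) *
        phi ((B.dat lam hl).w h ω) (st n j) (st n j + n j) := by
      have := mul_le_mul q1 q2 (by norm_num) (by linarith)
      linarith
    have := mul_le_mul p1 q3 (by norm_num) (by linarith)
    linarith
  · rw [Bw_split _ _ hij.ne, st_swap_i n hij, st_swap_j n hij, ← ha, ← hL, Function.comp_apply,
      Function.comp_apply, Equiv.swap_apply_left, Equiv.swap_apply_right]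
    have q1 : phi ((B.dat lam hl).w h ω) a (a + n j) ≤ 1 := by
      apply phi_le_one
      rw [S_eq, sum_cut ω (b := a + n i) (by omega) (by omega),
        sum_cut ω (a := a + n i) (b := a + n i + L) (by omega) (by omega)]
      have f2 : a + n i + L + m3 = a + n j := by omega
      rw [f2] at x3'
      have : 0 ≤ 2 * lam * h * (n j : ℝ) := by positivity
      rw [mul_add, mul_add]
      linarith [e2.1]
    have q2 : phi ((B.dat lam hl).w h ω) (a + n j + L) (a + n j + L + n i) ≤ 42 / 10 := by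
      unfold phi
      have k : S ((B.dat lam hl).w h ω) (a + n j + L) (a + n j + L + n i) ≤ 2 := by
        rw [S_eq]
        have : 0 ≤ 2 * lam * h * (n i : ℝ) := by positivity
        linarith
      have k1 := Real.exp_le_exp.2 k
      have k2 := exp2
      linarith
    have q3 := phi_half ((B.dat lam hl).w h ω) a (a + n j)
    have q4 := phi_half ((B.dat lam hl).w h ω) (a + n j + L) (a + n j + L + n i)
    have q5 : phi ((B.dat lam hl).w h ω) a (a + n j) *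
        phi ((B.dat lam hl).w h ω) (a + n j + L) (a + n j + L + n i) ≤ 42 / 10 := by
      have := mul_le_mul q1 q2 (by linarith) (by norm_num)
      linarith
    have q6 : 0 ≤ phi ((B.dat lam hl).w h ω) a (a + n j) *
        phi ((B.dat lam hl).w h ω) (a + n j + L) (a + n j + L + n i) :=
      mul_nonneg (by linarith) (by linarith)
    refine (mul_le_mul p2 q5 q6 (by norm_num)).trans ?_
    norm_num

/-- the event of the short excursions -/
def shE (B : Base) (lam : ℝ) (hl : 0 < lam) (h : ℝ) {ι : Type} (A : Finset ι) (a n : ι → ℕ) :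
    Set (ℕ → ℝ) :=
  {ω | 9 / 10 ≤ ∏ k ∈ A, phi ((B.dat lam hl).w h ω) (a k) (a k + n k) ∧
    ∏ k ∈ A, phi ((B.dat lam hl).w h ω) (a k) (a k + n k) ≤ 11 / 10 ∧
    |lam * ∑ k ∈ A, ∑ i ∈ Finset.Ioc (a k) (a k + n k), ω i| ≤ 1 / 10}

theorem meas_shE (B : Base) (lam : ℝ) (hl : 0 < lam) (h : ℝ) {ι : Type} (A : Finset ι)
    (a n : ι → ℕ) : MeasurableSet (shE B lam hl h A a n) := by
  have h1 : Measurable fun ω : ℕ → ℝ =>
      ∏ k ∈ A, phi ((B.dat lam hl).w h ω) (a k) (a k + n k) := by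
    apply Finset.measurable_prod
    intro k _
    unfold phi
    exact (measurable_const.add (M_meas.J_meas (B.dat lam hl) h (a k) (a k + n k)).2.2.exp).div_const 2
  have h2 : Measurable fun ω : ℕ → ℝ => |lam * ∑ k ∈ A, ∑ i ∈ Finset.Ioc (a k) (a k + n k), ω i| :=
    ((Finset.measurable_sum A fun k _ => meas_sum _).const_mul lam).abs
  exact (measurableSet_le measurable_const h1).inter
    ((measurableSet_le h1 measurable_const).inter (measurableSet_le h2 measurable_const))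

/-- MODULE EV -/
theorem ev : EvT := by
  intro hC hS B
  obtain ⟨q1, N1, hq1, H1⟩ := hC B 10 11 (by norm_num)
  obtain ⟨q3, N3, hq3, H3⟩ := hC B (-(84 / 10)) (-(77 / 10)) (by norm_num)
  obtain ⟨q5, N5, hq5, H5⟩ := hC B (-(9 / 10)) 0 (by norm_num)
  have hp : 0 < q1 * (q3 * q5) := by positivity
  obtain ⟨s0, hs0, HS⟩ := hS B (q1 * (q3 * q5) / 8) (by positivity)
  refine ⟨min s0 (1 / 20), q1 * (q3 * q5) / 2, ((N1 + N3 + N5 : ℕ) + 2 : ℝ)⁻¹,
    lt_min hs0 (by norm_num), by positivity, by positivity, ?_⟩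
  intro lam hl hlt h h0 h2 M n i j hij hG
  have hs : min s0 (1 / 20) ≤ 1 / 20 := min_le_right _ _
  have hT : 0 < lam⁻¹ ^ 2 := by positivity
  have hT1 : ((N1 + N3 + N5 : ℕ) + 2 : ℝ) ≤ lam⁻¹ :=
    le_inv_of_le_inv₀ hl hlt.le
  have hT2 : 2 * ((N1 + N3 + N5 : ℕ) + 2 : ℝ) ≤ lam⁻¹ ^ 2 := by
    have h3 : (0 : ℝ) ≤ (N1 + N3 + N5 : ℕ) := Nat.cast_nonneg _
    have h4 : ((N1 + N3 + N5 : ℕ) + 2 : ℝ) * ((N1 + N3 + N5 : ℕ) + 2 : ℝ) ≤ lam⁻¹ * lam⁻¹ :=
      mul_le_mul hT1 hT1 (by linarith) (by linarith)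
    have h5 : (2 : ℝ) * ((N1 + N3 + N5 : ℕ) + 2 : ℝ) ≤
        ((N1 + N3 + N5 : ℕ) + 2 : ℝ) * ((N1 + N3 + N5 : ℕ) + 2 : ℝ) :=
      mul_le_mul_of_nonneg_right (by linarith) (by linarith)
    rw [pow_two]
    linarith
  obtain ⟨l1, l2, l3, l4⟩ := lens _ _ hT hs n hG
  have g1 := hG.2.1
  have g3 := hG.2.2.2.1
  have g5 := hG.2.2.2.2.2
  obtain ⟨a, ha⟩ : ∃ a, a = st n i := ⟨_, rfl⟩
  obtain ⟨L, hL⟩ : ∃ L, L = ∑ k ∈ Finset.Ioo i j, n k := ⟨_, rfl⟩
  obtain ⟨m3, hm3⟩ : ∃ m3, m3 = n j - n i - ∑ k ∈ Finset.Ioo i j, n k := ⟨_, rfl⟩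
  rw [← hm3] at l3 l4
  rw [← hL] at l1 l2
  have hnj : n j = n i + L + m3 := by
    rw [← hL] at hm3
    omega
  have c1 : N1 + N3 + N5 ≤ n i := by
    have : ((N1 + N3 + N5 : ℕ) : ℝ) ≤ (n i : ℝ) := by
      have : (0 : ℝ) ≤ ((N1 + N3 + N5 : ℕ) : ℝ) := Nat.cast_nonneg _
      linarith
    exact_mod_cast this
  have c3 : N1 + N3 + N5 ≤ m3 := by
    have : ((N1 + N3 + N5 : ℕ) : ℝ) ≤ (m3 : ℝ) := by
      have : (0 : ℝ) ≤ ((N1 + N3 + N5 : ℕ) : ℝ) := Nat.cast_nonneg _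
      linarith
    exact_mod_cast this
  have P1 : q1 ≤ (disorder B.ν).real (clE a (n i) 10 11) := H1 (n i) (by omega) a
  have P3 : q3 ≤ (disorder B.ν).real (clE (a + n i + L) m3 (-(84 / 10)) (-(77 / 10))) :=
    H3 m3 (by omega) (a + n i + L)
  have P5 : q5 ≤ (disorder B.ν).real (clE (a + n j + L) (n i) (-(9 / 10)) 0) :=
    H5 (n i) (by omega) (a + n j + L)
  have I35 := indep_mul B.ν (Finset.Ioc (a + n i + L) (a + n i + L + m3))
    (Finset.Ioc (a + n j + L) (a + n j + L + n i))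
    (by
      rw [Finset.disjoint_left]
      intro x hx hx2
      rw [Finset.mem_Ioc] at hx hx2
      omega)
    (clE (a + n i + L) m3 (-(84 / 10)) (-(77 / 10))) (clE (a + n j + L) (n i) (-(9 / 10)) 0)
    (meas_clE _ _ _ _) (meas_clE _ _ _ _) (fun _ _ k => loc_clE _ _ _ _ k)
    (fun _ _ k => loc_clE _ _ _ _ k)
  have I135 := indep_mul B.ν (Finset.Ioc a (a + n i))
    (Finset.Ioc (a + n i + L) (a + n j + L + n i))
    (by
      rw [Finset.disjoint_left]
      intro x hx hx2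
      rw [Finset.mem_Ioc] at hx hx2
      omega)
    (clE a (n i) 10 11)
    (clE (a + n i + L) m3 (-(84 / 10)) (-(77 / 10)) ∩ clE (a + n j + L) (n i) (-(9 / 10)) 0)
    (meas_clE _ _ _ _) ((meas_clE _ _ _ _).inter (meas_clE _ _ _ _))
    (fun _ _ k => loc_clE _ _ _ _ k)
    (fun _ _ k hω => ⟨loc_clE _ _ _ _ (fun x hx => k x (by
        rw [Finset.mem_Ioc] at hx ⊢
        omega)) hω.1, loc_clE _ _ _ _ (fun x hx => k x (by
        rw [Finset.mem_Ioc] at hx ⊢
        omega)) hω.2⟩)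
  have P : q1 * (q3 * q5) ≤ (disorder B.ν).real (clE a (n i) 10 11 ∩
      (clE (a + n i + L) m3 (-(84 / 10)) (-(77 / 10)) ∩
        clE (a + n j + L) (n i) (-(9 / 10)) 0)) := by
    rw [I135, I35]
    exact mul_le_mul P1 (mul_le_mul P3 P5 hq5.le (hq3.le.trans P3)) (by positivity)
      (hq1.le.trans P1)
  -- short excursions
  have hsT : min s0 (1 / 20) * lam⁻¹ ^ 2 ≤ s0 * lam⁻¹ ^ 2 :=
    mul_le_mul_of_nonneg_right (min_le_left _ _) hT.le
  have S1 := HS lam hl h h0 h2 (Fin M) (Finset.univ \ {i, j}) (st n) n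
    (fun k _ l _ hkl => disj n hkl) (g5.trans hsT)
  have S2 := HS lam hl h h0 h2 (Fin M) (Finset.univ \ {i, j}) (st (n ∘ Equiv.swap i j))
    (n ∘ Equiv.swap i j) (fun k _ l _ hkl => disj _ hkl) (by
      refine le_trans (le_of_eq ?_) (g5.trans hsT)
      apply Finset.sum_congr rfl
      intro k hk
      rw [Finset.mem_sdiff, Finset.mem_insert, Finset.mem_singleton, not_or] at hk
      rw [swap_lo n hk.2.1 hk.2.2])
  have S3 := HS lam hl h h0 h2 Unit {()} (fun _ => a + n i) (fun _ => L)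
    (fun k _ l _ hkl => absurd (Subsingleton.elim k l) hkl) (by
      rw [Finset.sum_singleton]
      exact l1.trans hsT)
  have S4 := HS lam hl h h0 h2 Unit {()} (fun _ => a + n j) (fun _ => L)
    (fun k _ l _ hkl => absurd (Subsingleton.elim k l) hkl) (by
      rw [Finset.sum_singleton]
      exact l1.trans hsT)
  have Q1 := real_inter_ge (disorder B.ν) _
    (shE B lam hl h (Finset.univ \ {i, j}) (st n) n) (meas_shE _ _ _ _ _ _ _) _ _ P S1
  have Q2 := real_inter_ge (disorder B.ν) _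
    (shE B lam hl h (Finset.univ \ {i, j}) (st (n ∘ Equiv.swap i j)) (n ∘ Equiv.swap i j))
    (meas_shE _ _ _ _ _ _ _) _ _ Q1 S2
  have Q3 := real_inter_ge (disorder B.ν) _
    (shE B lam hl h {()} (fun _ => a + n i) (fun _ => L)) (meas_shE _ _ _ _ _ _ _) _ _ Q2 S3
  have Q4 := real_inter_ge (disorder B.ν) _
    (shE B lam hl h {()} (fun _ => a + n j) (fun _ => L)) (meas_shE _ _ _ _ _ _ _) _ _ Q3 S4
  refine le_trans ?_ (Q4.trans (measureReal_mono ?_))
  · linarith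
  · rintro ω ⟨⟨⟨⟨⟨e1, e3, e5⟩, b1⟩, b2⟩, b3⟩, b4⟩
    obtain ⟨-, -, b3'⟩ := b3
    obtain ⟨-, -, b4'⟩ := b4
    rw [Finset.sum_singleton] at b3' b4'
    exact point B lam hl h h0 h2 n hij _ hs hG ω a L m3 ha hL hm3 e1 e3 e5 b3' b4' b1.1 b2.2.1

end Pool.Agent.J6H40.Cop
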